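import Pool.Agent.Helper41.SQ.GoalsN
import Pool.Agent.Helper34.SQ.STF

/-!
Project SQ, stage B: STFP (the pointwise form of STF), from `Helper34.SQ.stf_core`.
-/

set_option autoImplicit false

namespace Pool.Agent.Helper83.SQN

open Matrix Pool.Agent.Helper19.SQ Pool.Agent.Helper34.SQ

theorem n_stfp : Pool.Agent.Helper41.SQ.S_STFP := by
  intro A _ _ ι _ _ C σ h p
  exact stf_core C σ h p

end Pool.Agent.Helper83.SQN
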